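import Pool.Agent.Lib.MP_5c318e_ag.Me.Met
import Pool.Agent.Lib.MP_5c318e_ag.S.Front
import Pool.Agent.Lib.MP_5c318e_ag.S.LocA
import Pool.Agent.Lib.MP_5c318e_ag.Ar.Area
import Pool.Agent.Lib.MP_5c318e_ag.Vl.CR

/-! Finite area of curves, the metric of a family over a curve, finiteness and closed range on a
chart, square integrable holomorphic fields as derivations. -/

set_option autoImplicit false
set_option linter.unusedSectionVars false

namespace Pool.Agent.Lib.MP_5c318e_ag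

open MeasureTheory Set Filter Topology Complex
open scoped ComplexConjugate ENNReal
open Pool.Agent.Lib.MP_9ff3e7_ag

variable {ι F : Type} [Fintype ι] [DecidableEq ι] [Field F] [Algebra ℂ F]

namespace Cht

/-- the area formula on a chart -/
theorem area_gen (c : Cht ι F) (f : ι → F) : ∃ d : ℕ, ∀ g : (ι → ℂ) → ℝ≥0∞, Measurable g →
    ∫⁻ p, ENNReal.ofReal (‖p.ev (Jac c.der f)‖ ^ 2) * g (fun i => p.ev (f i)) ∂c.D.μ ≤
      d * ∫⁻ w, g w := by
  by_cases hJ : Jac c.der f = 0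
  · exact ⟨0, fun g _ => by simp [hJ]⟩
  have : CharZero F := charZero_of_injective_algebraMap (algebraMap ℂ F).injective
  obtain ⟨c', hc, -, ⟨fin⟩⟩ := exists_base c.fg (Front.basis_of_jac c.basis hJ) ∅
  obtain ⟨C, -⟩ := c'.cov fin
  refine ⟨C.f.natDegree, fun g hg => ?_⟩
  have e := Front.cht_cv c c' (G := fun e => g fun i => e (f i))
    (hg.comp (measurable_pi_lambda _ fun i => measurable_pi_apply (f i)))
  rw [show (fun j => (c'.z j : F)) = f from funext hc] at e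
  have e2 : ∀ q : Pt c'.O, (fun i => q.ev (f i)) = c'.D.π q := fun q => funext fun i => by
    rw [c'.π_eq, ← hc i, Pt.ev_coe]
  rw [← e]
  simp only [e2]
  rw [c'.D.lintegral_eq (F := fun p => g (c'.D.π p)) (hg.comp c'.D.cont_π.measurable),
    ← lintegral_const_mul _ hg]
  refine lintegral_mono fun z => ?_
  have e3 : ∀ y : c'.D.π ⁻¹' {z}, g (c'.D.π y) = g z := fun y => by rw [show c'.D.π y = z from y.2]
  simp only [e3]
  rw [ENNReal.tsum_set_const]
  exact mul_le_mul_left (by exact_mod_cast ENat.toENNReal_le.2 (C.card_le z)) _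

variable {c : Cht ι F} {Φ φ ψ : Pt c.O → ℝ}

/-- the field of a derivation -/
noncomputable def fld (c : Cht ι F) (v : Derivation ℂ F F) (p : Pt c.O) (j : ι) : ℂ :=
  p.ev (v (c.z j))

theorem der_comb (w : ι → F) (d : ι → Derivation ℂ F F) (a : F) :
    (∑ j, w j • d j) a = ∑ j, w j * d j a :=
  map_sum (AddMonoidHom.mk' (fun v : Derivation ℂ F F => v a) fun _ _ => rfl) _ _

theorem der_expand (c : Cht ι F) (v : Derivation ℂ F F) (a : F) :
    v a = ∑ j, v (c.z j) * c.der j a := by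
  have : v = ∑ j, v (c.z j) • c.der j := der_ext_basis c.basis _ _ fun i => by
    simp [der_comb, c.der_z]
  conv_lhs => rw [this, der_comb]

/-- the derivative of a rational function along a vector -/
theorem fd_ev {p : Pt c.O} {a : F} (ha : p.Reg a) (ξ : ι → ℂ) :
    c.D.fd (fun q => q.ev a) p ξ = ∑ j, ξ j * p.ev (c.der j a) := by
  conv_lhs => rw [pi_eq_sum_univ' ξ]
  simp only [map_sum, map_smul, smul_eq_mul]
  exact Finset.sum_congr rfl fun j _ => congrArg _ ((c.cvEv.diff (p := p) ha).2 j)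

theorem fd_fld {v : Derivation ℂ F F} {p : Pt c.O} (hv : ∀ j, p.Reg (v (c.z j))) {a : F}
    (ha : p.Reg a) : p.Reg (v a) ∧ c.D.fd (fun q => q.ev a) p (c.fld v p) = p.ev (v a) := by
  have h1 := fun j => p.ev_mul (hv j) (c.cvEv.reg ha j)
  have h2 := p.ev_sum Finset.univ fun j _ => (h1 j).1
  rw [c.der_expand v a, fd_ev ha, h2.2]
  exact ⟨h2.1, Finset.sum_congr rfl fun j _ => (h1 j).2.symm⟩

theorem der_mem_of {v : Derivation ℂ F F} (hv : ∀ j, v (c.z j) ∈ c.O) {a : F} (ha : a ∈ c.O) :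
    v a ∈ c.O := by
  rw [c.der_expand v a]
  exact sum_mem fun j _ => mul_mem (hv j) (c.der_mem j a ha)

theorem fd_fld' {v : Derivation ℂ F F} {p : Pt c.O} (hv : ∀ j, p.Reg (v (c.z j))) (a : c.O) :
    c.D.fd (fun q => q a) p (c.fld v p) = p.ev (v a) := by
  simpa only [Pt.ev_coe] using (fd_fld hv (p.reg_coe a)).2

theorem vd_fld {v : Derivation ℂ F F} {p : Pt c.O} (hv : ∀ j, p.Reg (v (c.z j))) (a : c.O) :
    c.D.vd (c.fld v) (fun q => q a) p = p.ev (v a) := by
  rw [(c.hol a).vd_fd, fd_fld' hv]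

theorem hol_fld {v : Derivation ℂ F F} (hv : ∀ j, v (c.z j) ∈ c.O) : c.D.Hol (c.fld v) := fun p =>
  differentiableAt_pi.2 fun j => by
    simp only [fld, Pt.ev_of_mem _ (hv j)]
    exact c.hol _ p

/-- visibility for the list `1, Y, n` -/
theorem vis {v : Derivation ℂ F F} (hv : ∀ j, v (c.z j) ∈ c.O) (Y n : c.O) (p : Pt c.O) :
    ‖p.ev (Y * v n - n * v Y)‖ ^ 2 ≤ (1 + ‖p Y‖ ^ 2 + ‖p n‖ ^ 2) ^ 2 *
      c.D.levi (fun p => Real.log (1 + ‖p Y‖ ^ 2 + ‖p n‖ ^ 2)) p (c.fld v p) := by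
  have h := RD.lsq_vis (D := c.D) (Z := fun (i : Fin 3) p => p (![1, Y, n] i)) (fun _ => c.hol _)
    (x := p) (by simp only [Fin.sum_univ_three]; simp; positivity) (c.fld v p) 1 2
  have hr := fun j => p.reg_of_mem (hv j)
  simp only [Fin.sum_univ_three, fd_fld' hr] at h
  simp only [Matrix.cons_val_zero, Matrix.cons_val_one, Matrix.cons_val_two, Matrix.head_cons,
    Matrix.tail_cons, map_one, norm_one, one_pow] at h
  have e : (Y * v n - n * v Y : F) =
      (Y * ⟨_, der_mem_of hv n.2⟩ - n * ⟨_, der_mem_of hv Y.2⟩ : c.O) := rfl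
  rw [e, Pt.ev_coe, map_sub, map_mul, map_mul, ← p.ev_of_mem (der_mem_of hv n.2),
    ← p.ev_of_mem (der_mem_of hv Y.2)]
  exact h

theorem sos_vis (Y n : c.O) : c.Sos fun p => 1 + ‖p Y‖ ^ 2 + ‖p n‖ ^ 2 :=
  ((sos_const zero_le_one).add (sos_sq Y)).add (sos_sq n)

/-- the Fubini-Study area of a curve is finite -/
theorem Sos.area {c : Cht Unit F} {u : Pt c.O → ℝ} (h : c.Sos u) (h0 : ∀ p, 0 < u p) :
    Integrable (fun p => c.D.levi (fun p => Real.log (u p)) p 1) c.D.μ := by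
  have ps := h.psh h0
  obtain ⟨n, g, e⟩ := h
  obtain rfl : u = _ := funext e
  have key : ∀ j k, ∫⁻ p, ENNReal.ofReal (‖p (g j) * c.D.fd (fun q => q (g k)) p 1 -
      p (g k) * c.D.fd (fun q => q (g j)) p 1‖ ^ 2 / (∑ i, ‖p (g i)‖ ^ 2) ^ 2) ∂c.D.μ < ⊤ := by
    intro j k
    by_cases hj : g j = 0
    · have : ∀ p : Pt c.O, c.D.fd (fun _ => (0 : ℂ)) p = 0 := fun p => by simp [RD.fd]
      simp [hj, this]
    obtain ⟨d, hd⟩ := c.area_gen fun _ => (g k : F) / g j
    refine lt_of_le_of_lt (le_trans (lintegral_mono_ae ?_) (hd (fun w =>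
      ENNReal.ofReal (1 / (1 + ∑ i, ‖w i‖ ^ 2) ^ (Fintype.card Unit + 1))) (by fun_prop)))
      (ENNReal.mul_lt_top (ENNReal.natCast_lt_top d) (Ar.fs_fin (ν := Unit)).lt_top)
    filter_upwards [c.D.ae_of_gen (c.gen_ne hj)] with p hp
    have j0 : (g j : F) ≠ 0 := fun e0 => hj (Subtype.ext e0)
    have e1 : (1 : Unit → ℂ) = Pi.single () 1 := funext fun _ => by simp
    have e2 : p.ev (Jac c.der fun _ => (g k : F) / g j) = (p (g j) * c.D.fd (fun q => q (g k)) p 1 -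
        p (g k) * c.D.fd (fun q => q (g j)) p 1) / p (g j) ^ 2 := by
      rw [e1, c.fd_eq, c.fd_eq, ← map_mul, ← map_mul, ← map_sub, ← map_pow]
      refine p.ev_eq (by rw [map_pow]; exact pow_ne_zero _ hp) ?_
      simp only [Jac, Matrix.det_unique, Matrix.of_apply, Derivation.leibniz_div, smul_eq_mul]
      push_cast
      field_simp
    have e3 : p.ev ((g k : F) / g j) = p (g k) / p (g j) := p.ev_eq hp (div_mul_cancel₀ _ j0)
    rw [← ENNReal.ofReal_mul (by positivity), e2]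
    refine ENNReal.ofReal_le_ofReal ?_
    simp only [e3, Finset.univ_unique, Finset.sum_singleton, Fintype.card_unique, norm_div, norm_pow,
      div_pow]
    have n0 : 0 < ‖p (g j)‖ := norm_pos_iff.2 hp
    rcases eq_or_ne j k with rfl | hjk
    · simp
    have s1 : ‖p (g j)‖ ^ 2 + ‖p (g k)‖ ^ 2 ≤ ∑ i, ‖p (g i)‖ ^ 2 := by
      rw [← Finset.sum_pair (f := fun i => ‖p (g i)‖ ^ 2) hjk]
      exact Finset.sum_le_sum_of_subset_of_nonneg (Finset.subset_univ _) fun _ _ _ => sq_nonneg _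
    refine (div_le_div_of_nonneg_left (sq_nonneg _) (by positivity)
      (pow_le_pow_left₀ (by positivity) s1 2)).trans_eq ?_
    rw [one_add_one_eq_two]
    field_simp
  have ms : ∀ j, Continuous fun p : Pt c.O => c.D.fd (fun q => q (g j)) p 1 := fun j => by
    simp only [c.fd_apply]
    exact continuous_finsetSum _ fun i _ => continuous_const.mul (Pt.continuous_apply _)
  have cg : ∀ j, Continuous fun p : Pt c.O => p (g j) := fun j => Pt.continuous_apply _
  have mm : ∀ j k, Measurable fun p : Pt c.O => ENNReal.ofReal (‖p (g j) *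
      c.D.fd (fun q => q (g k)) p 1 - p (g k) * c.D.fd (fun q => q (g j)) p 1‖ ^ 2 /
        (∑ i, ‖p (g i)‖ ^ 2) ^ 2) := fun j k =>
    (((((cg j).mul (ms k)).sub ((cg k).mul (ms j))).norm.pow 2).measurable.div
      ((continuous_finsetSum _ fun i _ => (cg i).norm.pow 2).pow 2).measurable).ennreal_ofReal
  refine (lintegral_ofReal_ne_top_iff_integrable
    (RD.Bo.lv_sm ps.1 fun j => c.D.sm_const _).cont.aestronglyMeasurable
    (.of_forall fun p => ps.2 p 1)).1 (ne_of_lt (lt_of_le_of_lt (lintegral_mono fun p => ?_)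
      (lt_of_eq_of_lt ((lintegral_finsetSum .univ fun j _ => Finset.measurable_fun_sum .univ
        fun k _ => mm j k).trans (Finset.sum_congr rfl fun j _ =>
          lintegral_finsetSum _ fun k _ => mm j k))
        (ENNReal.sum_lt_top.2 fun j _ => ENNReal.sum_lt_top.2 fun k _ => key j k))))
  rw [RD.levi_lsq (Z := fun j (q : Pt c.O) => q (g j)) (fun j => c.hol _) (h0 p)]
  simp only [← ENNReal.ofReal_sum_of_nonneg fun _ _ => div_nonneg (sq_nonneg _) (sq_nonneg _),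
    ← Finset.sum_div]
  rw [← ENNReal.ofReal_sum_of_nonneg fun _ _ => by positivity, ← Finset.sum_div]
  refine ENNReal.ofReal_le_ofReal (div_le_div_of_nonneg_left (by positivity) (pow_pos (h0 p) 2) ?_)
  linarith [sq_nonneg (∑ i, ‖p (g i)‖ ^ 2)]

/-- finitely many square integrable holomorphic functions on a chart -/
theorem finH (c : Cht ι F) {ψ : Pt c.O → ℝ} (hψ : Continuous ψ)
    (h : Md c.siz fun p => Real.exp (ψ p)) : c.D.FinH ψ := by
  obtain ⟨T, hT, H⟩ := c.exists_countable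
  refine RD.finH_of_countable hψ hT fun u hu h2 => ?_
  obtain ⟨a, ha⟩ := c.rat_exp hu hψ.measurable h h2
  rw [show u = fun p => p a from funext ha]
  exact H a

theorem Met.coord (h : c.Met Φ) (hφ : Continuous φ) (hm : Md c.siz fun p => Real.exp (φ p)) :
    ∃ ψ : Pt c.O → ℝ, Continuous ψ ∧ Md c.siz (fun p => Real.exp (ψ p)) ∧
      ∀ p ξ j, ‖ξ j‖ ^ 2 * Real.exp (-ψ p) ≤ c.D.levi Φ p ξ * Real.exp (-φ p) := by
  obtain ⟨N, N0, hN⟩ := h.eucl
  refine ⟨fun p => N * c.siz p + N + φ p, ((continuous_const.mul c.psh.1.cont).add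
    continuous_const).add hφ, ?_, fun p ξ j => ?_⟩
  · simp only [Real.exp_add _ (φ _)]
    exact Md.mul ⟨N, N0, fun _ => le_rfl⟩ hm fun _ => (Real.exp_pos _).le
  · refine (mul_le_mul_of_nonneg_right (hN p ξ j) (Real.exp_pos _).le).trans_eq ?_
    rw [mul_right_comm, ← Real.exp_add, mul_comm]
    congr 2
    ring

theorem Met.finHH (h : c.Met Φ) (hφ : Continuous φ) (hm : Md c.siz fun p => Real.exp (φ p)) :
    c.D.FinHH Φ φ :=
  let ⟨_, h1, h2, h3⟩ := h.coord hφ hm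
  (c.finH h1 h2).hh h1 h3

/-- closed range on a chart -/
theorem Met.cr (h : c.Met Φ) (hφ : c.D.Psh φ) (hm : Md c.siz fun p => Real.exp (φ p)) :
    c.D.CR Φ φ := by
  obtain ⟨n, z, C, z0, h1, h2⟩ := h.list
  refine RD.cr_of c.exh h.pos h.cut hφ (fun i => c.hol (z i)) (i0 := none) (fun p => by simp [z0])
    h1 h2 (c.finH (hφ.1.cont.add h.pos.1.cont) ?_)
  simp only [Real.exp_add]
  exact hm.mul h.md fun _ => (Real.exp_pos _).le

/-- DER: a square integrable holomorphic field is a derivation that keeps the ring of the chart -/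
theorem Met.der (h : c.Met Φ) (hφ : Continuous φ) (hm : Md c.siz fun p => Real.exp (φ p))
    {W : Pt c.O → ι → ℂ} (hW : c.D.Hol W) (h2 : c.D.L2 Φ φ W) :
    ∃ v : Derivation ℂ F F, (∀ j, v (c.z j) ∈ c.O) ∧ W = c.fld v := by
  obtain ⟨ψ, h3, h4, h5⟩ := h.coord hφ hm
  choose w hw using fun j => c.rat_exp (hW.coord j) h3.measurable h4 (h2.2.mono'
    (((hW.coord j).cont.norm.pow 2).mul (Real.continuous_exp.comp h3.neg)).aestronglyMeasurable
    (.of_forall fun p => (Real.norm_of_nonneg (by positivity)).trans_le (h5 p (W p) j)))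
  have e : ∀ i, (∑ j, (w j : F) • c.der j) (c.z i) = w i := fun i => by
    simp [der_comb, c.der_z]
  exact ⟨∑ j, (w j : F) • c.der j, fun j => e j ▸ (w j).2, funext fun p => funext fun j => by
    rw [fld, e, Pt.ev_coe, hw]⟩

/-- an identity between values of regular functions is an identity -/
theorem eq_of_ev {a b : F} (ha : a ∈ c.O) (hb : b ∈ c.O) (h : ∀ p : Pt c.O, p.ev a = p.ev b) :
    a = b :=
  congrArg Subtype.val (Pt.ext_elt (a := ⟨a, ha⟩) (b := ⟨b, hb⟩) fun p => by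
    rw [← p.ev_of_mem, ← p.ev_of_mem, h])

end Cht

variable {ν K M : Type} [Fintype ν] [DecidableEq ν] [Field K] [Algebra ℂ K] [Field M] [Algebra ℂ M]
  [Algebra K M] {B : Cht Unit K}

namespace Rel

variable (T : Rel B ν M)

/-- METRIC of a family over a curve -/
theorem metric {α : Type} [Fintype α] {w : α → Pt T.X.O → ℝ} (hw : ∀ a, T.X.Sos (w a))
    (h0 : ∀ a p, 0 < w a p) : ∃ (Φ : Pt T.X.O → ℝ) (Ψ : Pt B.O → ℝ), T.X.Met Φ ∧ B.Met Ψ ∧
      Integrable (fun b => B.D.levi Ψ b 1) B.D.μ ∧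
      (∀ p ξ, B.D.levi Ψ (p.res T.inc) (fun i => ξ (Sum.inl i)) ≤ T.X.D.levi Φ p ξ) ∧
      ∀ a p ξ, T.X.D.levi (fun p => Real.log (w a p)) p ξ ≤ T.X.D.levi Φ p ξ := by
  obtain ⟨Φ, h1, h2, -⟩ := T.X.metric hw h0
  obtain ⟨Ψ, h3, -, h4⟩ := B.metric (α := Empty) (w := fun a => a.elim) (fun a => a.elim)
    fun a => a.elim
  have ps := T.psh_res h3.pos.psh
  refine ⟨_, Ψ, T.met_add h1 h3, h3, h4 1 fun Z hZ Z0 => hZ.area Z0, fun p ξ => ?_, fun a p ξ => ?_⟩
  · rw [RD.levi_add h1.pos.1 ps.1, T.levi_res h3.pos.1]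
    exact le_add_of_nonneg_left (h1.pos.psh.2 p ξ)
  · rw [RD.levi_add h1.pos.1 ps.1]
    exact (h2 a p ξ).trans (le_add_of_nonneg_right (ps.2 p ξ))

/-- the derivative of the base coordinate -/
theorem vd_t (W : Pt T.X.O → Unit ⊕ ν → ℂ) (p : Pt T.X.O) :
    T.X.D.vd W (fun q => q (T.X.z (Sum.inl ()))) p = W p (Sum.inl ()) := by
  rw [(T.X.hol _).vd_fd, ← show (fun q : Pt T.X.O => q.ev (T.X.z (Sum.inl ()))) = _ from
    funext fun q => q.ev_coe _, Cht.fd_ev (p.reg_coe _)]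
  simp [T.X.der_z, apply_ite p.ev]

theorem levi_res_one {φ : Pt B.O → ℝ} (h : B.D.Sm φ) (p : Pt T.X.O) (ξ : Unit ⊕ ν → ℂ) :
    T.X.D.levi (fun p => φ (p.res T.inc)) p ξ =
      B.D.levi φ (p.res T.inc) 1 * ‖ξ (Sum.inl ())‖ ^ 2 := by
  rw [T.levi_res h, mul_comm, ← RD.levi_smul h]
  congr 1
  exact funext fun _ => by simp

/-- the Hessian of a function on the base -/
theorem gp_res {φ : Pt B.O → ℝ} (h : B.D.Sm φ) (p : Pt T.X.O) (ξ ζ : Unit ⊕ ν → ℂ) :
    T.X.D.gp (fun p => φ (p.res T.inc)) p ξ ζ =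
      B.D.levi φ (p.res T.inc) 1 * (ξ (Sum.inl ()) * conj (ζ (Sum.inl ()))) := by
  have s := T.sm_res h
  have q : ∀ η, T.X.D.gp (fun p => φ (p.res T.inc)) p η η =
      B.D.levi φ (p.res T.inc) 1 * (η (Sum.inl ()) * conj (η (Sum.inl ()))) := fun η => by
    rw [RD.gp_self s, T.levi_res_one h, mul_conj']
    push_cast
    rfl
  have a2 : ∀ a b b', T.X.D.gp (fun p => φ (p.res T.inc)) p a (b + b') =
      T.X.D.gp _ p a b + T.X.D.gp _ p a b' := fun a b b' => by
    rw [← RD.gp_conj s, RD.gp_add, map_add, RD.gp_conj s, RD.gp_conj s]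
  have m2 : ∀ (c : ℂ) a b, T.X.D.gp (fun p => φ (p.res T.inc)) p a (c • b) =
      conj c * T.X.D.gp _ p a b := fun c a b => by
    rw [← RD.gp_conj s, RD.gp_smul, map_mul, RD.gp_conj s]
  have h1 := q (ξ + ζ)
  have h2 := q (ξ + I • ζ)
  simp only [RD.gp_add, a2, RD.gp_smul, m2, q, Pi.add_apply, Pi.smul_apply, smul_eq_mul, map_add,
    map_mul, conj_I] at h1 h2
  linear_combination (h1 + I * h2) / 2 + (T.X.D.gp (fun p => φ (p.res T.inc)) p ξ ζ -
    T.X.D.gp (fun p => φ (p.res T.inc)) p ζ ξ - B.D.levi φ (p.res T.inc) 1 *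
      (ξ (Sum.inl ()) * conj (ζ (Sum.inl ())) - ζ (Sum.inl ()) * conj (ξ (Sum.inl ())))) / 2 * I_mul_I

end Rel

end Pool.Agent.Lib.MP_5c318e_ag
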