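import Pool.Agent.Lib.MP_5c318e_ag.Bo.TDefs
import Pool.Agent.Lib.MP_5c318e_ag.RD.HAlg
import Pool.Agent.Lib.MP_5c318e_ag.W.LP
import Pool.Agent.Lib.MP_5c318e_ag.S.PDefs

/-! The Levi form of the logarithm of a sum of squares of holomorphic functions. -/

set_option autoImplicit false
set_option linter.unusedSectionVars false

namespace Pool.Agent.Lib.MP_5c318e_ag

open MeasureTheory Set Filter Topology Complex
open scoped ComplexConjugate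
open Pool.Agent.Lib.MP_9ff3e7_ag

/-- the identity of Lagrange -/
theorem Me.lagrange {κ : Type} [Fintype κ] (a b : κ → ℂ) :
    ∑ j, ∑ k, ‖a j * b k - a k * b j‖ ^ 2 =
      2 * ((∑ j, ‖a j‖ ^ 2) * (∑ j, ‖b j‖ ^ 2) - ‖∑ j, a j * conj (b j)‖ ^ 2) := by
  have n : ∀ z : ℂ, ((‖z‖ ^ 2 : ℝ) : ℂ) = z * conj z := fun z => by
    rw [mul_conj, normSq_eq_norm_sq]
  apply ofReal_injective
  simp only [ofReal_sum, ofReal_mul, ofReal_sub, n, map_sum, map_mul, map_sub, conj_conj,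
    Finset.sum_mul_sum, ofReal_ofNat]
  have e : ∑ j, ∑ k, a k * conj (a k) * (b j * conj (b j)) =
      ∑ j, ∑ k, a j * conj (a j) * (b k * conj (b k)) := Finset.sum_comm
  have e' : ∑ j, ∑ k, a k * conj (b k) * (conj (a j) * b j) =
      ∑ j, ∑ k, a j * conj (b j) * (conj (a k) * b k) := Finset.sum_comm
  rw [two_mul]
  nth_rw 1 [← e, ← e']
  simp only [← Finset.sum_sub_distrib, ← Finset.sum_add_distrib]
  exact Finset.sum_congr rfl fun j _ => Finset.sum_congr rfl fun k _ => by ring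

theorem Me.pair_le {κ : Type} [Fintype κ] {t : κ → κ → ℝ} (h0 : ∀ j k, 0 ≤ t j k)
    (hs : ∀ j k, t j k = t k j) (hd : ∀ j, t j j = 0) (j k : κ) : 2 * t j k ≤ ∑ j, ∑ k, t j k := by
  classical
  rcases eq_or_ne j k with rfl | h
  · rw [hd, mul_zero]
    exact Finset.sum_nonneg fun _ _ => Finset.sum_nonneg fun _ _ => h0 _ _
  have h1 : ∀ j k, t j k ≤ ∑ k, t j k := fun j k =>
    Finset.single_le_sum (fun k _ => h0 j k) (Finset.mem_univ k)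
  have := Finset.sum_le_sum_of_subset_of_nonneg (f := fun j => ∑ k, t j k)
    (Finset.subset_univ {j, k}) fun i _ _ => Finset.sum_nonneg fun _ _ => h0 _ _
  rw [Finset.sum_pair h] at this
  linarith [h1 j k, h1 k j, hs j k]

namespace RD

variable {ι : Type} [Fintype ι] [DecidableEq ι] {S : Type} [TopologicalSpace S] [MeasurableSpace S]
  [BorelSpace S] [T2Space S] [SigmaCompactSpace S] {D : RD ι S}

theorem Hol.op_fd {a : S → ℂ} (ha : D.Hol a) (j : ι) (x : S) :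
    D.op (-I) j a x = D.fd a x (Pi.single j 1) := by
  have e : (Pi.single j I : ι → ℂ) = I • Pi.single j 1 := by rw [← Pi.single_smul]; simp
  simp only [op, F.HC.op, fd, F.Lv.fderiv_real_apply (ha x), e, map_smul, smul_eq_mul]
  linear_combination (-(fderiv ℂ (fun z => a (D.sec x z)) (D.π x)) (Pi.single j 1) / 2) * I_mul_I

/-- the derivative of a holomorphic function along a field -/
theorem Hol.vd_fd {a : S → ℂ} (ha : D.Hol a) (W : S → ι → ℂ) (x : S) :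
    D.vd W a x = D.fd a x (W x) := by
  conv_rhs => rw [pi_eq_sum_univ' (W x)]
  simp only [vd, ha.op_fd, map_sum, map_smul, smul_eq_mul]

theorem Hol.op_hol {a : S → ℂ} (ha : D.Hol a) (j : ι) : D.Hol (D.op (-I) j a) := fun x => by
  refine DifferentiableAt.congr_of_eventuallyEq (f := fun z =>
    fderiv ℂ (fun z => a (D.sec x z)) z (Pi.single j 1))
    (((WP.ana ha x).fderiv.differentiableAt).clm_apply (differentiableAt_const _)) ?_
  filter_upwards [tgt_nhds (D.mem_tgt x)] with z hz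
  rw [ha.op_fd, fd, π_sec hz, (germ_f a hz).fderiv_eq]

theorem Hol.vd_hol {a : S → ℂ} (ha : D.Hol a) {W : S → ι → ℂ} (hW : D.Hol W) :
    D.Hol (D.vd W a) := fun x =>
  DifferentiableAt.fun_sum fun j _ => (hW.coord j x).mul (ha.op_hol j x)

variable {κ : Type} [Fintype κ] {Z : κ → S → ℂ}

theorem lsq_psh (hZ : ∀ j, D.Hol (Z j)) (h0 : ∀ x, 0 < ∑ j, ‖Z j x‖ ^ 2) :
    D.Psh fun x => Real.log (∑ j, ‖Z j x‖ ^ 2) := by
  have h : ∀ x, 0 < ∑ j, ‖Z j (D.sec x (D.π x))‖ ^ 2 + 0 := fun x => by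
    rw [D.sec_self, add_zero]; exact h0 x
  refine ⟨fun x => ?_, fun x ξ => ?_⟩
  · simpa only [add_zero] using F.contDiffAt_log_sos Finset.univ (f := fun a z => Z a (D.sec x z))
      (fun a _ => WP.ana (hZ a) x) (h x).ne'
  · simpa only [add_zero, levi] using F.levi_log_sos_nonneg Finset.univ (f := fun a z => Z a (D.sec x z))
      (fun a _ => WP.ana (hZ a) x) le_rfl (h x) ξ

theorem levi_lsq' (hZ : ∀ j, D.Hol (Z j)) {x : S} (h0 : 0 < ∑ j, ‖Z j x‖ ^ 2) (ξ : ι → ℂ) :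
    D.levi (fun x => Real.log (∑ j, ‖Z j x‖ ^ 2)) x ξ =
      (∑ j, ‖D.fd (Z j) x ξ‖ ^ 2) / (∑ j, ‖Z j x‖ ^ 2) -
        ‖∑ j, Z j x * conj (D.fd (Z j) x ξ)‖ ^ 2 / (∑ j, ‖Z j x‖ ^ 2) ^ 2 := by
  simpa only [add_zero, D.sec_self, levi, fd] using F.levi_log_sos_eq Finset.univ
    (f := fun a z => Z a (D.sec x z)) (fun a _ => WP.ana (hZ a) x) (e := 0)
    (by rw [D.sec_self, add_zero]; exact h0.ne') ξ

/-- the pull back of the Fubini-Study form -/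
theorem levi_lsq (hZ : ∀ j, D.Hol (Z j)) {x : S} (h0 : 0 < ∑ j, ‖Z j x‖ ^ 2) (ξ : ι → ℂ) :
    D.levi (fun x => Real.log (∑ j, ‖Z j x‖ ^ 2)) x ξ =
      (∑ j, ∑ k, ‖Z j x * D.fd (Z k) x ξ - Z k x * D.fd (Z j) x ξ‖ ^ 2) /
        (2 * (∑ j, ‖Z j x‖ ^ 2) ^ 2) := by
  rw [levi_lsq' hZ h0, Me.lagrange (fun j => Z j x) fun j => D.fd (Z j) x ξ]
  field_simp

/-- visibility: the form sees the derivative of every quotient -/
theorem lsq_vis (hZ : ∀ j, D.Hol (Z j)) {x : S} (h0 : 0 < ∑ j, ‖Z j x‖ ^ 2) (ξ : ι → ℂ) (j k : κ) :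
    ‖Z j x * D.fd (Z k) x ξ - Z k x * D.fd (Z j) x ξ‖ ^ 2 ≤
      (∑ j, ‖Z j x‖ ^ 2) ^ 2 * D.levi (fun x => Real.log (∑ j, ‖Z j x‖ ^ 2)) x ξ := by
  rw [levi_lsq hZ h0, mul_div_assoc', le_div_iff₀ (by positivity)]
  have := Me.pair_le (t := fun j k => ‖Z j x * D.fd (Z k) x ξ - Z k x * D.fd (Z j) x ξ‖ ^ 2)
    (fun _ _ => sq_nonneg _) (fun _ _ => by rw [norm_sub_rev]) (fun _ => by simp) j k
  nlinarith [mul_le_mul_of_nonneg_left this (sq_nonneg (∑ j, ‖Z j x‖ ^ 2))]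

theorem levi_lsq_le (hZ : ∀ j, D.Hol (Z j)) {x : S} (h0 : 0 < ∑ j, ‖Z j x‖ ^ 2) (ξ : ι → ℂ) :
    D.levi (fun x => Real.log (∑ j, ‖Z j x‖ ^ 2)) x ξ ≤
      (∑ j, ‖D.fd (Z j) x ξ‖ ^ 2) / ∑ j, ‖Z j x‖ ^ 2 := by
  rw [levi_lsq' hZ h0]
  exact sub_le_self _ (by positivity)

/-- the kernel of the form -/
theorem levi_lsq_eq_zero (hZ : ∀ j, D.Hol (Z j)) {x : S} (h0 : 0 < ∑ j, ‖Z j x‖ ^ 2) (ξ : ι → ℂ) :
    D.levi (fun x => Real.log (∑ j, ‖Z j x‖ ^ 2)) x ξ = 0 ↔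
      ∀ j k, Z j x * D.fd (Z k) x ξ = Z k x * D.fd (Z j) x ξ := by
  refine ⟨fun h j k => ?_, fun h => ?_⟩
  · have := lsq_vis hZ h0 ξ j k
    rw [h, mul_zero] at this
    exact sub_eq_zero.1 (norm_eq_zero.1 (pow_eq_zero_iff two_ne_zero |>.1
      (this.antisymm (sq_nonneg _))))
  · rw [levi_lsq hZ h0, Finset.sum_eq_zero fun j _ => Finset.sum_eq_zero fun k _ => by
      rw [h j k, sub_self, norm_zero, zero_pow two_ne_zero], zero_div]

theorem dbar_lsq (hZ : ∀ j, D.Hol (Z j)) {x : S} (h0 : 0 < ∑ j, ‖Z j x‖ ^ 2) (ξ : ι → ℂ) :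
    D.dbar (fun x => (Real.log (∑ j, ‖Z j x‖ ^ 2) : ℂ)) x ξ =
      (∑ j, Z j x * conj (D.fd (Z j) x ξ)) / (∑ j, ‖Z j x‖ ^ 2 : ℝ) := by
  simpa only [add_zero, D.sec_self, dbar, fd] using F.dbar_log_sos Finset.univ
    (f := fun a z => Z a (D.sec x z)) (fun a _ => WP.ana (hZ a) x) (e := 0)
    (by rw [D.sec_self, add_zero]; exact h0.ne') ξ

/-- the derivative along a field -/
theorem vr_lsq (hZ : ∀ j, D.Hol (Z j)) (h0 : ∀ x, 0 < ∑ j, ‖Z j x‖ ^ 2) (W : S → ι → ℂ) (x : S) :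
    D.vr W (fun x => Real.log (∑ j, ‖Z j x‖ ^ 2)) x =
      (∑ j, conj (Z j x) * D.vd W (Z j) x) / (∑ j, ‖Z j x‖ ^ 2 : ℝ) := by
  have := Bo.dbar_vr W (lsq_psh hZ h0).1 x
  rw [dbar_lsq hZ (h0 x)] at this
  rw [← conj_conj (D.vr W _ x), ← this]
  simp only [map_div₀, map_sum, map_mul, conj_conj, conj_ofReal, (hZ _).vd_fd]

theorem levi_dif {φ ψ : S → ℝ} (hφ : D.Sm φ) (hψ : D.Sm ψ) (x : S) (ξ : ι → ℂ) :
    D.levi (fun x => φ x - ψ x) x ξ = D.levi φ x ξ - D.levi ψ x ξ :=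
  F.levi_sub (hφ.two x) (hψ.two x) ξ

/-- a difference of two dominated psh functions -/
theorem abs_levi_le {φ ψ Φ : S → ℝ} (hφ : D.Psh φ) (hψ : D.Psh ψ)
    (h1 : ∀ x ξ, D.levi φ x ξ ≤ D.levi Φ x ξ) (h2 : ∀ x ξ, D.levi ψ x ξ ≤ D.levi Φ x ξ) (c : ℝ)
    (x : S) (ξ : ι → ℂ) : |D.levi (fun x => c * (φ x - ψ x)) x ξ| ≤ |c| * D.levi Φ x ξ := by
  rw [levi_cmul c (hφ.1.sub hψ.1), levi_dif hφ.1 hψ.1, abs_mul]
  refine mul_le_mul_of_nonneg_left (abs_le.2 ⟨?_, ?_⟩) (abs_nonneg c)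
  · linarith [hφ.2 x ξ, h2 x ξ]
  · linarith [hψ.2 x ξ, h1 x ξ]

end RD

end Pool.Agent.Lib.MP_5c318e_ag
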