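import Pool.Agent.Lib.MP_5c318e_ag.S.Conn
import Pool.Agent.Lib.MP_5c318e_ag.Ky.Tra
import Pool.Agent.Lib.MP_5c318e_ag.Ds.Sub
import Pool.Agent.Lib.MP_5c318e_ag.W.FibRed
import Pool.Agent.Lib.MP_5c318e_ag.C.Siz

/-! Holomorphic functions of moderate size on an arbitrary chart come from its ring. -/

set_option autoImplicit false

namespace Pool.Agent.Lib.MP_5c318e_ag

open MeasureTheory Set Filter Topology

variable {ι F : Type} [Fintype ι] [DecidableEq ι] [Field F] [Algebra ℂ F]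

namespace Cht

variable (c : Cht ι F)

/-- continuous functions that agree at general points agree -/
theorem ext_gen {E : Type} [TopologicalSpace E] [T2Space E] {u v : Pt c.O → E} (hu : Continuous u)
    (hv : Continuous v) (h : ∀ᶠ p in c.D.gen, u p = v p) : u = v :=
  have := c.D.openPos
  (hu.ae_eq_iff_eq c.D.μ hv).1 (c.D.ae_of_gen h)

/-- a continuous rational function is regular -/
theorem reg_of_cont {u : Pt c.O → ℂ} (hu : Continuous u) {g : MvPolynomial ι ℂ} (hg : g ≠ 0) :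
    ∀ a : c.O, (∀ p, u p * MvPolynomial.eval (c.D.π p) g = p a) → ∃ ψ : c.O, ∀ p, u p = p ψ := by
  induction g using UniqueFactorizationMonoid.induction_on_prime with
  | h₁ => exact absurd rfl hg
  | h₂ g hu1 =>
    obtain ⟨g', e⟩ := hu1.exists_right_inv
    refine fun a h => ⟨a * MvPolynomial.aeval c.z g', fun p => ?_⟩
    rw [map_mul, c.apply_aeval, ← h, mul_assoc, ← map_mul, e, map_one, mul_one]
  | h₃ g q g0 hq ih =>
    intro a h
    have := (Ideal.span_singleton_prime hq.ne_zero).2 hq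
    have h1 : a ∈ (Ideal.span {q}).map
        (MvPolynomial.aeval c.z : MvPolynomial ι ℂ →ₐ[ℂ] c.O).toRingHom :=
      FibRed.mem_of_vanish (FibRed.radical_map c.et _) fun p hp => by
        have := hp _ (Ideal.mem_map_of_mem _ (Ideal.mem_span_singleton_self q))
        rw [← h, map_mul, ← c.apply_aeval p q]
        exact mul_eq_zero_of_right _ (mul_eq_zero_of_left this _)
    rw [Ideal.map_span, image_singleton, Ideal.mem_span_singleton'] at h1
    obtain ⟨b, rfl⟩ := h1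
    refine ih g0 b (congrFun (c.ext_gen (hu.mul ((mv_cont g).comp c.D.cont_π))
      (Pt.continuous_apply b) ⟨q, hq.ne_zero, fun p hp => mul_right_cancel₀ hp ?_⟩))
    have := h p
    rw [map_mul, map_mul] at this
    refine Eq.trans ?_ (this.trans (congrArg _ (c.apply_aeval p q)))
    ring

/-- a continuous function that is the value of `φ` at general points -/
theorem mem_of_cont {u : Pt c.O → ℂ} (hu : Continuous u) {φ : F}
    (h : ∀ᶠ p in c.D.gen, u p = p.ev φ) : ∃ ψ : c.O, (ψ : F) = φ ∧ ∀ p, u p = p ψ := by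
  obtain ⟨a, b, hb, e⟩ := c.frac φ
  obtain ⟨g, t, hg, e'⟩ := c.exists_dvd hb
  have h1 : ∀ᶠ p in c.D.gen, u p * p b = p a := (h.and (c.gen_ne hb)).mono fun p hp => by
    rw [hp.1, p.ev_eq hp.2 e, div_mul_cancel₀ _ hp.2]
  have h2 := congrFun (c.ext_gen (hu.mul (Pt.continuous_apply b)) (Pt.continuous_apply a) h1)
  obtain ⟨ψ, hψ⟩ := c.reg_of_cont hu hg (a * t) fun p => by
    rw [← c.apply_aeval, ← e', map_mul, map_mul, ← mul_assoc]
    exact congrArg (· * _) (h2 p)
  have h3 : ψ * b = a := Pt.ext_elt fun p => by rw [map_mul, ← hψ]; exact h2 p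
  refine ⟨ψ, mul_right_cancel₀ (b := (b : F)) (fun e0 => hb (Subtype.ext e0)) ?_, hψ⟩
  rw [e, ← h3]; rfl

/-- a function without zeros is a unit -/
theorem unit_of_ne {a : c.O} (h : ∀ p : Pt c.O, p a ≠ 0) : IsUnit a := by
  by_contra hn
  obtain ⟨p, h1, -⟩ := Pt.exists_zero_ne (I := Ideal.span {a}) (h := 1) (by
    rw [← Ideal.eq_top_iff_one, Ideal.radical_eq_top, Ideal.span_singleton_eq_top]
    exact hn)
  exact h p (h1 a (Ideal.mem_span_singleton_self a))

/-- moderate functions stay moderate under a map of charts -/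
theorem md_res {κ G : Type} [Fintype κ] [DecidableEq κ] [Field G] [Algebra ℂ G] {S : Cht κ G}
    (inc : c.O →ₐ[ℂ] S.O) {u : Pt c.O → ℝ} (h : Md c.siz u) : Md S.siz fun q => u (q.res inc) := by
  have h2 : Md S.siz fun q => ∑ a ∈ c.gens, ‖q (inc a)‖ ^ 2 + 1 :=
    Md.add S.siz_nonneg (Md.sum S.siz_nonneg _ fun a _ =>
      (S.md _).pow S.siz_nonneg (fun _ => norm_nonneg _) 2) (Md.const S.siz_nonneg 1)
  obtain ⟨L, L0, hL⟩ := h2.log_le fun p => by positivity
  obtain ⟨N, N0, hN⟩ := h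
  refine ⟨N * L + N, by positivity, fun q => (hN _).trans (Real.exp_le_exp.2 ?_)⟩
  have := mul_le_mul_of_nonneg_left (hL q) N0
  have e : c.siz (q.res inc) = Real.log (∑ a ∈ c.gens, ‖q (inc a)‖ ^ 2 + 1) := rfl
  nlinarith [S.siz_nonneg q]

/-- RAT in `L^s` on an arbitrary chart -/
theorem rat {u : Pt c.O → ℂ} (hu : c.D.Hol u) {s : ℝ} (hs : 0 < s) {om : Pt c.O → ℝ}
    (hm : Measurable om) (h0 : ∀ p, 0 < om p) (hom : Md c.siz om)
    (hi : ∫⁻ p, ENNReal.ofReal (‖u p‖ ^ s / om p) ∂c.D.μ < ⊤) : ∃ ψ : c.O, ∀ p, u p = p ψ := by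
  obtain ⟨S, -, -, h, hh, hS⟩ := FCht.exists_sub c c.basis ∅
  have hle : c.O ≤ S.O := hS ▸ le_locAway _ h
  let inc := Subalgebra.inclusion hle
  obtain ⟨J, J0, sur, fub, -⟩ := Cht.res_loc (B := c) (S := S.toCht) inc (fun _ => rfl) hh hS
  obtain ⟨J', hJ⟩ := (S.toCht.unit_of_ne fun q => (J0 q).1).exists_right_inv
  have eJ : ∀ q : Pt S.O, ‖q J‖ ^ 2 * ‖q J'‖ ^ 2 = 1 := fun q => by
    rw [← mul_pow, ← norm_mul, ← map_mul, hJ, map_one, norm_one, one_pow]
  have n2 : ∀ q : Pt S.O, 0 < ‖q J'‖ ^ 2 := fun q =>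
    (sq_nonneg _).lt_of_ne' (right_ne_zero_of_mul_eq_one (eJ q))
  have hol : S.D.Hol fun q => u (q.res inc) := fun q =>
    (DifferentiableAt.comp (g := fun y => u (c.D.sec (q.res inc) y)) _
      (by rw [S.D.sec_self]; exact hu _) (Cht.res_hol' inc q)).congr_of_eventuallyEq
      ((Cht.res_germ' inc q).mono fun _ e => congrArg u e)
  rw [fub (fun p => ENNReal.ofReal (‖u p‖ ^ s / om p))
    ((hu.cont.norm.rpow_const fun _ => Or.inr hs.le).measurable.div hm).ennreal_ofReal] at hi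
  obtain ⟨ψ, hψ⟩ := S.toCht.rat_wt S.fin hol hs (om := fun q => om (q.res inc) * ‖q J'‖ ^ 2)
    (fun q => mul_pos (h0 _) (n2 q)) ((c.md_res inc hom).mul
      ((S.md J').pow S.siz_nonneg (fun _ => norm_nonneg _) 2) fun q => (n2 q).le)
    (lt_of_le_of_lt (lintegral_mono fun q => le_of_eq (by
      rw [← ENNReal.ofReal_mul (by positivity), eq_inv_of_mul_eq_one_left (eJ q)]
      congr 1
      have := n2 q
      have := h0 (q.res inc)
      field_simp)) hi)
  obtain ⟨φ, -, hφ⟩ := c.mem_of_cont hu.cont (φ := ψ) (((c.gen_ne hh).and (c.gen_reg ψ)).mono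
    fun p hp => by
      obtain ⟨q, rfl⟩ := sur p hp.1
      rw [hψ, ← (Cht.res_ev inc (fun _ => rfl) q hp.2).2, Pt.ev_coe])
  exact ⟨φ, hφ⟩

/-- RAT for a weight `exp (-ψ)` -/
theorem rat_exp {u : Pt c.O → ℂ} (hu : c.D.Hol u) {ψ : Pt c.O → ℝ} (hm : Measurable ψ)
    (hψ : Md c.siz fun p => Real.exp (ψ p))
    (hi : Integrable (fun p => ‖u p‖ ^ 2 * Real.exp (-ψ p)) c.D.μ) : ∃ a : c.O, ∀ p, u p = p a :=
  c.rat hu two_pos hm.exp (fun _ => Real.exp_pos _) hψ (by
    simpa only [Real.rpow_two, Real.exp_neg, div_eq_mul_inv] using hi.lintegral_lt_top)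

/-- the ring of a chart has countable dimension -/
theorem exists_countable : ∃ T : Set (Pt c.O → ℂ), T.Countable ∧
    ∀ a : c.O, (fun p : Pt c.O => p a) ∈ Submodule.span ℂ T := by
  obtain ⟨s, hs, e⟩ := FibRed.countable_span c.O
  let L : c.O →ₗ[ℂ] Pt c.O → ℂ := LinearMap.pi fun p => p.hom.toLinearMap
  refine ⟨L '' s, hs.image _, fun a => ?_⟩
  rw [Submodule.span_image, e]
  exact ⟨a, trivial, rfl⟩

end Cht

end Pool.Agent.Lib.MP_5c318e_ag
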