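import Pool.Agent.Lib.MP_5c318e_ag.Ar.Sos
import Pool.Agent.Lib.MP_5c318e_ag.Me.Lsq
import Pool.Agent.Lib.MP_5c318e_ag.Me.Rat
import Pool.Agent.Lib.MP_5c318e_ag.Fp.PwDefs

/-! Complete Kaehler metrics on charts whose potentials are logarithms of sums of squares up to a
bounded function. -/

set_option autoImplicit false
set_option linter.unusedSectionVars false

namespace Pool.Agent.Lib.MP_5c318e_ag

open MeasureTheory Set Filter Topology Complex
open scoped ComplexConjugate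
open Pool.Agent.Lib.MP_9ff3e7_ag

variable {ι F : Type} [Fintype ι] [DecidableEq ι] [Field F] [Algebra ℂ F]

namespace RD

variable {S : Type} [TopologicalSpace S] [MeasurableSpace S] [BorelSpace S] [T2Space S]
  [SigmaCompactSpace S] {D : RD ι S}

/-- adding a decreasing function of a proper function keeps the area finite -/
theorem area_dec {s : S → ℝ} (hs : D.Sm s) (hp : ∀ c, IsCompact {x | s x ≤ c}) {χ : ℝ → ℝ}
    (hχ : D.Sm fun x => χ (s x)) (hd : ∀ x, DifferentiableAt ℝ χ (s x) ∧ deriv χ (s x) ≤ 0)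
    (ξ : ι → ℂ) (h0 : ∀ x, 0 ≤ D.levi (fun x => s x + χ (s x)) x ξ)
    (hi : Integrable (fun x => D.levi s x ξ) D.μ) :
    Integrable (fun x => D.levi (fun x => s x + χ (s x)) x ξ) D.μ := by
  obtain ⟨σ, σs, σm, σ0, σ1, -, σn, σl, -⟩ := F.exists_step (a := 0) (b := 1) one_pos
  have hW : ∀ j, D.Hol fun _ : S => ξ j := fun j x => differentiableAt_const _
  have sW : ∀ j, D.Sm fun _ : S => ξ j := fun j => D.sm_const _
  have lv : ∀ {u : S → ℝ}, D.Sm u → D.Sm fun x => D.levi u x ξ := fun hu => Bo.lv_sm hu sW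
  have cov : AECover D.μ atTop fun n : ℕ => {x | s x ≤ n} :=
    ⟨.of_forall fun x => (tendsto_natCast_atTop_atTop (R := ℝ)).eventually_ge_atTop (s x),
      fun n => (hp n).measurableSet⟩
  refine cov.integrable_of_integral_bounded_of_nonneg_ae (∫ x, |D.levi s x ξ| ∂D.μ)
    (fun n => (lv (hs.add hχ)).cont.continuousOn.integrableOn_compact (hp n)) (.of_forall h0)
    (.of_forall fun n => ?_)
  let τ : ℝ → ℝ := fun r => σ (n + 1 - r)
  have τs : ContDiff ℝ ⊤ (fun r : ℝ => (n + 1 - r : ℝ)) := by fun_prop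
  have τc : ContDiff ℝ (⊤ : ℕ∞) τ := σs.comp (τs.of_le le_top)
  have τd : ∀ r, deriv τ r ≤ 0 := fun r =>
    Antitone.deriv_nonpos fun a b h => σm (by linarith)
  have η : D.Sm fun x => τ (s x) := hs.comp τc
  have ηc : HasCompactSupport fun x => τ (s x) :=
    .intro (hp (n + 1)) fun x hx => σ0 _ (by simp only [mem_ofPred_eq, not_le] at hx; linarith)
  have key := Bo.int_vd (D := D) (φ := fun _ => 0) (W := fun _ => ξ) (D.sm_const 0) sW
    (fun x => by simp [dv, vd, op_const]) (η.ofReal.mul (Bo.vr_sm sW hχ).conj)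
    (Bo.supp_real ηc).mul_right
  have e : ∀ x, D.vd (fun _ => ξ) (fun y => (τ (s y) : ℂ) * conj (D.vr (fun _ => ξ)
      (fun x => χ (s x)) y)) x * (Real.exp (-0) : ℂ) = ((deriv τ (s x) * deriv χ (s x) *
        ‖D.vr (fun _ => ξ) s x‖ ^ 2 + τ (s x) * D.levi (fun x => χ (s x)) x ξ : ℝ) : ℂ) := fun x => by
    rw [Bo.vd_mul _ η.ofReal (Bo.vr_sm sW hχ).conj, Bo.vd_gp _ hW hχ, Bo.gp_self hχ,
      ← Bo.dbar_vr _ hχ, hc_dbar_comp hs x (hd x).1, Bo.dbar_vr (fun _ => ξ) hs,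
      show D.vd (fun _ => ξ) (fun y => (τ (s y) : ℂ)) x = _ from Bo.vr_comp _ τc hs x]
    push_cast
    rw [← mul_conj']
    simp only [neg_zero, Complex.exp_zero]
    ring
  simp only [e] at key
  rw [integral_complex_ofReal, ofReal_eq_zero] at key
  have i1 : Integrable (fun x => τ (s x) * D.levi (fun x => χ (s x)) x ξ) D.μ :=
    (η.mul (lv hχ)).int ηc.mul_right
  have i2 : Integrable (fun x => τ (s x) * D.levi s x ξ) D.μ := (η.mul (lv hs)).int ηc.mul_right
  have k1 : ∫ x, τ (s x) * D.levi (fun x => χ (s x)) x ξ ∂D.μ ≤ 0 := by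
    by_cases h : Integrable (fun x => deriv τ (s x) * deriv χ (s x) *
        ‖D.vr (fun _ => ξ) s x‖ ^ 2 + τ (s x) * D.levi (fun x => χ (s x)) x ξ) D.μ
    · exact (integral_mono i1 h fun x => le_add_of_nonneg_left
        (mul_nonneg (mul_nonneg_of_nonpos_of_nonpos (τd _) (hd x).2) (sq_nonneg _))).trans key.le
    · refine (h ?_).elim
      have := (Bo.vd_sm sW (η.ofReal.mul (Bo.vr_sm sW hχ).conj)).int
        (Bo.vd_supp _ (Bo.supp_real ηc).mul_right)
      simpa only [e, RCLike.re_to_complex, ofReal_re] using (this.mul_const (Real.exp (-0) : ℂ)).re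
  calc _ ≤ ∫ x, (τ (s x) * D.levi s x ξ + τ (s x) * D.levi (fun x => χ (s x)) x ξ) ∂D.μ := by
        rw [← integral_indicator (hp n).measurableSet]
        refine integral_mono ((integrable_indicator_iff (hp n).measurableSet).2
          ((lv (hs.add hχ)).cont.continuousOn.integrableOn_compact (hp n))) (i2.add i1) fun x => ?_
        beta_reduce
        rw [← mul_add, ← levi_add hs hχ]
        by_cases hx : s x ≤ n
        · rw [indicator_of_mem (show x ∈ {x | s x ≤ n} from hx), show τ (s x) = 1 from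
            σ1 _ (by linarith), one_mul]
        · rw [indicator_of_notMem (show x ∉ {x | s x ≤ n} from hx)]
          exact mul_nonneg (σn _) (h0 x)
    _ ≤ ∫ x, |D.levi s x ξ| ∂D.μ := by
        rw [integral_add i2 i1]
        refine (add_le_of_nonpos_right k1).trans (integral_mono i2 hi.abs fun x => ?_)
        exact (mul_le_mul_of_nonneg_left (le_abs_self _) (σn _)).trans
          (mul_le_of_le_one_left (abs_nonneg _) (σl _))

end RD

/-- a complete Kaehler potential at bounded distance from the logarithm of a sum of squares -/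
structure Cht.Met (c : Cht ι F) (Φ : Pt c.O → ℝ) : Prop where
  pos : c.D.Pos Φ
  cut : c.D.Cut Φ
  siz : ∀ p, c.siz p ≤ Φ p
  sos : ∃ (Z : Pt c.O → ℝ) (C : ℝ), c.Sos Z ∧ ∀ p, 1 ≤ Z p ∧ |Φ p - Real.log (Z p)| ≤ C
  eucl : ∃ N : ℝ, 0 ≤ N ∧ ∀ p ξ j, ‖ξ j‖ ^ 2 ≤ Real.exp (N * c.siz p + N) * c.D.levi Φ p ξ

namespace Cht

variable {c : Cht ι F} {u Φ : Pt c.O → ℝ}

/-- functions without a common zero generate the unit ideal -/
theorem exists_one {κ : Type} [Fintype κ] {g : κ → c.O} (h : ∀ p : Pt c.O, ∃ i, p (g i) ≠ 0) :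
    ∃ a : κ → c.O, ∑ i, a i * g i = 1 := by
  by_contra hn
  obtain ⟨p, h1, -⟩ := Pt.exists_zero_ne (I := Ideal.span (range g)) (h := 1) (by
    rw [← Ideal.eq_top_iff_one, Ideal.radical_eq_top, Ideal.eq_top_iff_one,
      Ideal.mem_span_range_iff_exists_fun]
    exact hn)
  obtain ⟨i, hi⟩ := h p
  exact hi (h1 _ (Ideal.subset_span ⟨i, rfl⟩))

/-- a positive sum of squares is bounded below by the inverse of a sum of squares -/
theorem Sos.inv (h : c.Sos u) (h0 : ∀ p, 0 < u p) : ∃ v, c.Sos v ∧ ∀ p, 0 < v p ∧ 1 ≤ u p * v p := by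
  obtain ⟨n, g, e⟩ := h
  obtain ⟨a, ha⟩ := exists_one (g := g) fun p => by
    by_contra hn
    push Not at hn
    exact (h0 p).ne' (by simp [e, hn])
  have k : ∀ p : Pt c.O, 1 ≤ u p * ∑ i, ‖p (a i)‖ ^ 2 := fun p => by
    have h1 : (1 : ℝ) ≤ ∑ i, ‖p (g i)‖ * ‖p (a i)‖ := by
      have := congrArg (fun x => ‖p x‖) ha
      simp only [map_sum, map_mul, map_one, norm_one] at this
      exact this.ge.trans ((norm_sum_le _ _).trans_eq (by simp only [norm_mul, mul_comm]))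
    rw [e]
    exact (one_le_pow₀ h1).trans (Finset.sum_mul_sq_le_sq_mul_sq _ _ _)
  exact ⟨_, sos_fin a, fun p => ⟨pos_of_mul_pos_right (one_pos.trans_le (k p)) (h0 p).le, k p⟩⟩

/-- all real powers of a positive sum of squares are moderate -/
theorem Sos.md_exp (h : c.Sos u) (h0 : ∀ p, 0 < u p) (r : ℝ) :
    Md c.siz fun p => Real.exp (r * Real.log (u p)) := by
  obtain ⟨v, hv, h1⟩ := h.inv h0
  obtain ⟨A, A0, hA⟩ := h.md.log_le h0
  obtain ⟨B, B0, hB⟩ := hv.md.log_le fun p => (h1 p).1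
  refine ⟨|r| * (A + B), by positivity, fun p => Real.exp_le_exp.2 ?_⟩
  have h2 := Real.log_nonneg (h1 p).2
  rw [Real.log_mul (h0 p).ne' (h1 p).1.ne'] at h2
  have s0 := c.siz_nonneg p
  have h3 : |Real.log (u p)| ≤ (A + B) * c.siz p + (A + B) := abs_le.2
    ⟨by nlinarith [hB p], by nlinarith [hA p]⟩
  calc _ ≤ |r| * |Real.log (u p)| := (le_abs_self _).trans_eq (abs_mul _ _)
    _ ≤ _ := (mul_le_mul_of_nonneg_left h3 (abs_nonneg r)).trans_eq (by ring)

theorem Met.nonneg (h : c.Met Φ) (p : Pt c.O) : 0 ≤ Φ p := (c.siz_nonneg p).trans (h.siz p)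

theorem Met.exh (h : c.Met Φ) : c.D.Exh Φ := ⟨h.pos.psh, fun t =>
  (c.exh.2 t).of_isClosed_subset (isClosed_le h.pos.1.cont continuous_const)
    fun p hp => (h.siz p).trans hp⟩

theorem Met.md (h : c.Met Φ) : Md c.siz fun p => Real.exp (Φ p) := by
  obtain ⟨Z, C, hZ, h1⟩ := h.sos
  refine ((Md.const c.siz_nonneg (Real.exp C)).mul hZ.md hZ.nonneg).mono fun p => ?_
  rw [← Real.exp_log (one_pos.trans_le (h1 p).1), ← Real.exp_add]
  exact Real.exp_le_exp.2 (by linarith [(abs_le.1 (h1 p).2).2])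

theorem Met.le (h : c.Met Φ) : ∃ A : ℝ, 0 ≤ A ∧ ∀ p, Φ p ≤ A * c.siz p + A := by
  simpa only [Real.log_exp] using h.md.log_le fun _ => Real.exp_pos _

/-- the form in which the closed range argument uses the potential -/
theorem Met.list (h : c.Met Φ) : ∃ (n : ℕ) (z : Option (Fin n) → c.O) (C : ℝ), z none = 1 ∧
    (∀ p : Pt c.O, ∑ i, ‖p (z i)‖ ^ 2 ≤ C * Real.exp (Φ p)) ∧
      ∀ p : Pt c.O, Real.exp (Φ p) ≤ C * ∑ i, ‖p (z i)‖ ^ 2 := by
  obtain ⟨Z, C, ⟨n, g, e⟩, h1⟩ := h.sos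
  have e1 : ∀ p : Pt c.O, ∑ i : Option (Fin n), ‖p (i.elim 1 g)‖ ^ 2 = 1 + Z p := fun p => by
    simp [Fintype.sum_option, e]
  refine ⟨n, fun i => i.elim 1 g, 2 * Real.exp C, rfl, fun p => ?_, fun p => ?_⟩
  · have : Real.exp (Real.log (Z p)) ≤ Real.exp (C + Φ p) :=
      Real.exp_le_exp.2 (by linarith [(abs_le.1 (h1 p).2).1])
    rw [Real.exp_log (one_pos.trans_le (h1 p).1), Real.exp_add] at this
    rw [e1]
    linarith [(h1 p).1]
  · have : Real.exp (Φ p) ≤ Real.exp (C + Real.log (Z p)) :=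
      Real.exp_le_exp.2 (by linarith [(abs_le.1 (h1 p).2).2])
    rw [Real.exp_add, Real.exp_log (one_pos.trans_le (h1 p).1)] at this
    rw [e1]
    nlinarith [(h1 p).1, Real.exp_pos C]

/-- METRIC: a complete potential that dominates finitely many positive sums of squares -/
theorem metric (c : Cht ι F) {α : Type} [Fintype α] {w : α → Pt c.O → ℝ} (hw : ∀ a, c.Sos (w a))
    (h0 : ∀ a p, 0 < w a p) : ∃ Φ, c.Met Φ ∧
      (∀ a p ξ, c.D.levi (fun p => Real.log (w a p)) p ξ ≤ c.D.levi Φ p ξ) ∧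
      ∀ ξ, (∀ Z, c.Sos Z → (∀ p, 0 < Z p) →
        Integrable (fun p => c.D.levi (fun p => Real.log (Z p)) p ξ) c.D.μ) →
        Integrable (fun p => c.D.levi Φ p ξ) c.D.μ := by
  choose v hv h1 using fun a => (hw a).inv (h0 a)
  have s0 : c.Sos fun p => Hyp.nsq (c.D.π p) := ((sos_fin c.z).add (sos_const zero_le_one)).congr
    fun p => by simp only [Hyp.nsq, c.π_eq]
  let W : Option α → Pt c.O → ℝ := fun o => o.elim (fun p => Hyp.nsq (c.D.π p))
    fun a p => w a p * v a p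
  have hW : ∀ o, c.Sos (W o) := by
    rintro (_ | a)
    exacts [s0, (hw a).mul (hv a)]
  have W1 : ∀ o p, 1 ≤ W o p := by
    rintro (_ | a) p
    exacts [Hyp.one_le_nsq _, (h1 a p).2]
  obtain ⟨Z, hZ, Z1, Zp, Zc, Zl⟩ := c.exists_pot (w := fun o p => W o p ^ 2)
    (fun o => (hW o).pow 2) (fun o p => one_le_pow₀ (W1 o p)) 3
  obtain ⟨k1, k2, k3, k4⟩ := RD.cut_bdd Zp Zc fun p => (Z1 p).2.1
  have lv : ∀ o p ξ, c.D.levi (fun p => Real.log (W o p)) p ξ ≤ c.D.levi
      (fun p => Real.log (Z p) + (Real.log (Real.log (Z p)))⁻¹) p ξ := fun o p ξ => by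
    have := ((Zl o p).2 ξ).trans (k3 p ξ)
    simp only [Real.log_pow] at this
    rw [RD.levi_cmul _ ((hW o).psh fun p => one_pos.trans_le (W1 o p)).1] at this
    push_cast at this
    linarith
  refine ⟨_, ⟨k1, k2, fun p => (Z1 p).2.2.trans (le_add_of_nonneg_right (k4 p).1),
    ⟨Z, 1, hZ, fun p => ⟨(Z1 p).1, ?_⟩⟩, ?_⟩, fun a p ξ => le_trans ?_ (lv (some a) p ξ),
    fun ξ hi => ?_⟩
  · rw [add_sub_cancel_left, abs_of_nonneg (k4 p).1]
    exact (k4 p).2
  · obtain ⟨N, N0, hN⟩ := (s0.pow 2).md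
    refine ⟨N, N0, fun p ξ j => ?_⟩
    have a := MP_9ff3e7_ag.F.le_levi_log_euclid 0 (c.D.π p) ξ one_pos
    simp only [Pi.zero_apply, sub_zero, one_mul] at a
    have b := (a.trans_eq (RD.levi_π (fun y => Real.log (Hyp.nsq y)) p ξ).symm).trans (lv none p ξ)
    rw [div_le_iff₀' (by positivity)] at b
    exact ((Finset.single_le_sum (f := fun i => ‖ξ i‖ ^ 2) (fun _ _ => sq_nonneg _)
      (Finset.mem_univ j)).trans b).trans (mul_le_mul_of_nonneg_right (hN p) (k1.psh.2 p ξ))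
  · have p1 := (hw a).psh (h0 a)
    have p2 := (hv a).psh fun p => (h1 a p).1
    rw [show (fun p => Real.log (W (some a) p)) = fun p => Real.log (w a p) + Real.log (v a p) from
      funext fun p => Real.log_mul (h0 a p).ne' (h1 a p).1.ne', RD.levi_add p1.1 p2.1]
    exact le_add_of_nonneg_right (p2.2 p ξ)
  · have l1 : ∀ p, 1 < Real.log (Z p) := fun p => by linarith [(Z1 p).2.1]
    refine RD.area_dec (χ := fun r => (Real.log r)⁻¹) Zp.1 Zc ?_ (fun p => ?_) ξ
      (fun p => k1.psh.2 p ξ) (hi Z hZ fun p => one_pos.trans_le (Z1 p).1)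
    · simpa only [add_sub_cancel_left] using k1.1.sub Zp.1
    · have := (Real.hasDerivAt_log (x := Real.log (Z p)) (by linarith [l1 p])).fun_inv
        (Real.log_pos (l1 p)).ne'
      refine ⟨this.differentiableAt, this.deriv.trans_le (div_nonpos_of_nonpos_of_nonneg
        (neg_nonpos.2 (inv_nonneg.2 (by linarith [l1 p]))) (sq_nonneg _))⟩

end Cht

variable {δ ν K M : Type} [Fintype δ] [DecidableEq δ] [Fintype ν] [DecidableEq ν]
  [Field K] [Algebra ℂ K] [Field M] [Algebra ℂ M] [Algebra K M] {B : Cht δ K}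

namespace Rel

variable (T : Rel B ν M) {E : Type} [NormedAddCommGroup E]

theorem ana_inl (z : δ ⊕ ν → ℂ) : AnalyticAt ℂ (fun (w : δ ⊕ ν → ℂ) i => w (Sum.inl i)) z :=
  AnalyticAt.pi fun i => (ContinuousLinearMap.proj (R := ℂ) (φ := fun _ : δ ⊕ ν => ℂ)
    (Sum.inl i)).analyticAt z

theorem π_res (p : Pt T.X.O) : (fun i => T.X.D.π p (Sum.inl i)) = B.D.π (p.res T.inc) :=
  funext (T.π_inl p)

theorem hol_res [NormedSpace ℂ E] {f : Pt B.O → E} (h : B.D.Hol f) :
    T.X.D.Hol fun p => f (p.res T.inc) := fun p => by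
  have h1 := h (p.res T.inc)
  rw [← T.π_res p] at h1
  exact (DifferentiableAt.comp (g := fun z => f (B.D.sec (p.res T.inc) z)) _ h1
    (ana_inl _).differentiableAt).congr_of_eventuallyEq
    ((T.sec_res p).mono fun z e => congrArg f e)

theorem sm_res [NormedSpace ℝ E] {f : Pt B.O → E} (h : B.D.Sm f) :
    T.X.D.Sm fun p => f (p.res T.inc) := fun p => by
  have h1 := h (p.res T.inc)
  rw [← T.π_res p] at h1
  exact (ContDiffAt.comp (g := fun z => f (B.D.sec (p.res T.inc) z)) _ h1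
    ((ana_inl _).contDiffAt.restrict_scalars ℝ)).congr_of_eventuallyEq
    ((T.sec_res p).mono fun z e => congrArg f e)

theorem levi_res {φ : Pt B.O → ℝ} (h : B.D.Sm φ) (p : Pt T.X.O) (ξ : δ ⊕ ν → ℂ) :
    T.X.D.levi (fun p => φ (p.res T.inc)) p ξ =
      B.D.levi φ (p.res T.inc) fun i => ξ (Sum.inl i) := by
  have h1 := h.two (p.res T.inc)
  unfold RD.levi
  rw [← T.π_res p] at h1 ⊢
  rw [F.levi_congr ((T.sec_res p).mono fun z e => congrArg φ e), F.levi_comp_holo h1 (ana_inl _)]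
  congr 1
  exact congrArg (fun L : (δ ⊕ ν → ℂ) →L[ℂ] δ → ℂ => L ξ) (ContinuousLinearMap.fderiv
    (ContinuousLinearMap.pi fun i => ContinuousLinearMap.proj (R := ℂ) (φ := fun _ : δ ⊕ ν => ℂ)
      (Sum.inl i)))

theorem psh_res {φ : Pt B.O → ℝ} (h : B.D.Psh φ) : T.X.D.Psh fun p => φ (p.res T.inc) :=
  ⟨T.sm_res h.1, fun p ξ => (h.2 _ _).trans_eq (T.levi_res h.1 p ξ).symm⟩

theorem sos_res {u : Pt B.O → ℝ} (h : B.Sos u) : T.X.Sos fun p => u (p.res T.inc) :=
  let ⟨n, g, e⟩ := h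
  ⟨n, fun i => T.inc (g i), fun _ => e _⟩

/-- adding the potential of the base -/
theorem met_add {Φ : Pt T.X.O → ℝ} {Ψ : Pt B.O → ℝ} (h : T.X.Met Φ) (h' : B.Met Ψ) :
    T.X.Met fun p => Φ p + Ψ (p.res T.inc) := by
  have ps := T.psh_res h'.pos.psh
  have le : ∀ p ξ, T.X.D.levi Φ p ξ ≤ T.X.D.levi (fun p => Φ p + Ψ (p.res T.inc)) p ξ := fun p ξ => by
    rw [RD.levi_add h.pos.1 ps.1]
    exact le_add_of_nonneg_right (ps.2 p ξ)
  obtain ⟨Z, C, hZ, h1⟩ := h.sos
  obtain ⟨Z', C', hZ', h1'⟩ := h'.sos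
  obtain ⟨N, N0, hN⟩ := h.eucl
  refine ⟨⟨h.pos.1.add ps.1, fun p ξ h0 => (h.pos.2 p ξ h0).trans_le (le p ξ)⟩,
    h.cut.of_le one_pos fun p ξ => (le p ξ).trans_eq (one_mul _).symm,
    fun p => (h.siz p).trans (le_add_of_nonneg_right (h'.nonneg _)),
    ⟨_, C + C', hZ.mul (T.sos_res hZ'), fun p =>
      ⟨one_le_mul_of_one_le_of_one_le (h1 p).1 (h1' _).1, ?_⟩⟩,
    N, N0, fun p ξ j => (hN p ξ j).trans (mul_le_mul_of_nonneg_left (le p ξ) (Real.exp_pos _).le)⟩
  rw [Real.log_mul (one_pos.trans_le (h1 p).1).ne' (one_pos.trans_le (h1' _).1).ne',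
    add_sub_add_comm]
  exact (abs_add_le _ _).trans (add_le_add (h1 p).2 (h1' _).2)

end Rel

end Pool.Agent.Lib.MP_5c318e_ag
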